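import Mathlib

namespace Pool.Agent.Results.MP_55559b_an.NotExposed

open Matrix

def IsFace {n : ℕ} (K F : Set (Fin n → ℝ)) : Prop :=
  F ⊆ K ∧ IsClosed F ∧ (0 : Fin n → ℝ) ∈ F ∧ (∀ x ∈ F, ∀ y ∈ F, x + y ∈ F) ∧
    (∀ x ∈ F, ∀ c : ℝ, 0 ≤ c → c • x ∈ F) ∧ ∀ x ∈ K, ∀ y ∈ K, x + y ∈ F → x ∈ F ∧ y ∈ F

def mats : Fin 5 → Matrix (Fin 6) (Fin 6) ℝ :=
  ![diagonal ![1, 0, -1, 0, 0, 0], diagonal ![0, 1, 0, -1, 0, 0], diagonal ![1, 1, 1, 1, 1, 0],
    !![1, 0, 0, 0, 0, 0; 0, 0, 0, 0, 0, 0; 0, 0, 0, 0, 0, 0; 0, 0, 0, 0, 0, 0;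
       0, 0, 0, 0, 0, 1; 0, 0, 0, 0, 1, 0], diagonal ![0, 0, 0, 0, 0, 1]]

lemma mats_symm (i : Fin 5) : (mats i).IsSymm := by
  ext a b
  fin_cases i <;> fin_cases a <;> fin_cases b <;> simp [mats]

def Q (y : Fin 5 → ℝ) (z : Fin 6 → ℝ) : ℝ :=
  (y 2 + y 0 + y 3) * z 0 ^ 2 + (y 2 + y 1) * z 1 ^ 2 + (y 2 - y 0) * z 2 ^ 2 +
    (y 2 - y 1) * z 3 ^ 2 + y 2 * z 4 ^ 2 + 2 * y 3 * z 4 * z 5 + y 4 * z 5 ^ 2

lemma mem_iff (y : Fin 5 → ℝ) : (∑ i, y i • mats i).PosSemidef ↔ ∀ z, 0 ≤ Q y z := by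
  have hq : ∀ z : Fin 6 → ℝ, star z ⬝ᵥ ((∑ i, y i • mats i) *ᵥ z) = Q y z := by
    intro z
    have hM : ∑ i, y i • mats i =
        !![y 2 + y 0 + y 3, 0, 0, 0, 0, 0; 0, y 2 + y 1, 0, 0, 0, 0; 0, 0, y 2 - y 0, 0, 0, 0;
          0, 0, 0, y 2 - y 1, 0, 0; 0, 0, 0, 0, y 2, y 3; 0, 0, 0, 0, y 3, y 4] := by
      ext a b
      rw [Fin.sum_univ_five]
      fin_cases a <;> fin_cases b <;> simp [mats] <;> ring
    rw [hM]
    simp [Fin.sum_univ_six, Q, dotProduct, mulVec]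
    ring
  rw [posSemidef_iff_dotProduct_mulVec]
  constructor
  · intro h z; rw [← hq]; exact h.2 z
  · intro h
    refine ⟨?_, fun z => by rw [hq]; exact h z⟩
    have : (∑ i, y i • mats i).IsSymm := by
      unfold Matrix.IsSymm
      rw [transpose_sum]
      exact Finset.sum_congr rfl fun i _ => by rw [transpose_smul, (mats_symm i).eq]
    simpa [IsHermitian, conjTranspose_eq_transpose_of_trivial] using this.eq

lemma lin0 (a b : ℝ) (h : ∀ s : ℝ, |s| ≤ 1 → 0 ≤ s * a + s ^ 2 * b) : a = 0 := by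
  by_contra ha
  have hpos : 0 < |a| + |b| := by have := abs_pos.2 ha; positivity
  have h1 := h (-a / (|a| + |b|)) (by
    rw [abs_div, abs_neg, abs_of_pos hpos, div_le_one hpos]; linarith [abs_nonneg b])
  have h2 : -a / (|a| + |b|) * a + (-a / (|a| + |b|)) ^ 2 * b =
      a ^ 2 * (b - (|a| + |b|)) / (|a| + |b|) ^ 2 := by field_simp; ring
  rw [h2] at h1
  have h3 : a ^ 2 * (b - (|a| + |b|)) < 0 := by
    apply mul_neg_of_pos_of_neg (by positivity)
    have := le_abs_self b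
    have := abs_pos.2 ha
    linarith
  have := div_neg_of_neg_of_pos h3 (by positivity : 0 < (|a| + |b|) ^ 2)
  linarith

theorem result : ∃ (n m : ℕ) (A : Fin n → Matrix (Fin m) (Fin m) ℝ) (F : Set (Fin n → ℝ)),
    (∀ i, (A i).IsSymm) ∧ IsFace {x | (∑ i, x i • A i).PosSemidef} F ∧
    ¬ ∃ P : (Fin n → ℝ) →ₗ[ℝ] (Fin n → ℝ),
      P ∘ₗ P = P ∧ P '' {x | (∑ i, x i • A i).PosSemidef} = F := by
  have hK : {x : Fin 5 → ℝ | (∑ i, x i • mats i).PosSemidef} = {y | ∀ z, 0 ≤ Q y z} := by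
    ext y; exact mem_iff y
  have ht : ∀ y : Fin 5 → ℝ, (∀ z, 0 ≤ Q y z) → 0 ≤ y 4 := fun y h => by
    simpa [Q] using h ![0, 0, 0, 0, 0, 1]
  refine ⟨5, 6, mats, {y | (∀ z, 0 ≤ Q y z) ∧ y 4 = 0}, mats_symm, ?_, ?_⟩
  · rw [hK]
    refine ⟨fun y hy => hy.1, ?_, ⟨fun z => by simp [Q], rfl⟩, ?_, ?_, ?_⟩
    · have : {y : Fin 5 → ℝ | (∀ z, 0 ≤ Q y z) ∧ y 4 = 0} =
          (⋂ z, {y | 0 ≤ Q y z}) ∩ {y | y 4 = 0} := by ext; simp
      rw [this]
      refine (isClosed_iInter fun z => isClosed_le continuous_const ?_).inter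
        (isClosed_eq (by fun_prop) continuous_const)
      unfold Q; fun_prop
    · rintro x ⟨hx, hx4⟩ y ⟨hy, hy4⟩
      refine ⟨fun z => ?_, by simp [hx4, hy4]⟩
      have : Q (x + y) z = Q x z + Q y z := by simp [Q]; ring
      rw [this]; exact add_nonneg (hx z) (hy z)
    · rintro x ⟨hx, hx4⟩ c hc
      refine ⟨fun z => ?_, by simp [hx4]⟩
      have : Q (c • x) z = c * Q x z := by simp [Q]; ring
      rw [this]; exact mul_nonneg hc (hx z)
    · rintro x hx y hy ⟨-, h4⟩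
      have h1 := ht x hx
      have h2 := ht y hy
      have h3 : x 4 + y 4 = 0 := h4
      exact ⟨⟨hx, by linarith⟩, hy, by linarith⟩
  · rw [hK]
    rintro ⟨P, hPP, hP⟩
    have hfix : ∀ y : Fin 5 → ℝ, (∀ z, 0 ≤ Q y z) → y 4 = 0 → P y = y := by
      intro y h1 h2
      have : y ∈ P '' {y | ∀ z, 0 ≤ Q y z} := by rw [hP]; exact ⟨h1, h2⟩
      obtain ⟨w, -, rfl⟩ := this
      exact congrArg (fun T : (Fin 5 → ℝ) →ₗ[ℝ] (Fin 5 → ℝ) => T w) hPP
    have hin : ∀ y : Fin 5 → ℝ, (∀ z, 0 ≤ Q y z) → (∀ z, 0 ≤ Q (P y) z) ∧ P y 4 = 0 := by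
      intro y h
      have : P y ∈ P '' {y | ∀ z, 0 ≤ Q y z} := ⟨y, h, rfl⟩
      rw [hP] at this; exact this
    have f2 : P ![0, 0, 1, 0, 0] = ![0, 0, 1, 0, 0] :=
      hfix _ (fun z => by simp [Q]; positivity) (by simp)
    have f0 : P ![1, 0, 1, 0, 0] = ![1, 0, 1, 0, 0] :=
      hfix _ (fun z => by simp [Q]; positivity) (by simp)
    have f1 : P ![0, 1, 1, 0, 0] = ![0, 1, 1, 0, 0] :=
      hfix _ (fun z => by simp [Q]; positivity) (by simp)
    set v := P ![0, 0, 0, 1, 0]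
    set u := P ![0, 0, 0, 0, 1]
    have hform : ∀ a b s : ℝ, P ![a, b, 1, s, s ^ 2] =
        s • v + s ^ 2 • u + ![a, b, 1, 0, 0] := by
      intro a b s
      have e : (![a, b, 1, s, s ^ 2] : Fin 5 → ℝ) = a • ![1, 0, 1, 0, 0] + b • ![0, 1, 1, 0, 0] +
          (1 - a - b) • ![0, 0, 1, 0, 0] + s • ![0, 0, 0, 1, 0] + s ^ 2 • ![0, 0, 0, 0, 1] := by
        ext i; fin_cases i <;> simp
      rw [e]
      simp only [map_add, map_smul, f0, f1, f2]
      ext i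
      simp only [Pi.add_apply, Pi.smul_apply, smul_eq_mul]
      fin_cases i <;> simp [v, u] <;> ring
    have hmem : ∀ a b s : ℝ, 0 ≤ 1 + a + s → 0 ≤ 1 + b → 0 ≤ 1 - a → 0 ≤ 1 - b →
        ∀ z, 0 ≤ Q (s • v + s ^ 2 • u + ![a, b, 1, 0, 0]) z := by
      intro a b s h1 h2 h3 h4
      rw [← hform]
      refine (hin _ fun z => ?_).1
      have : Q ![a, b, 1, s, s ^ 2] z = (1 + a + s) * z 0 ^ 2 + (1 + b) * z 1 ^ 2 +
          (1 - a) * z 2 ^ 2 + (1 - b) * z 3 ^ 2 + (z 4 + s * z 5) ^ 2 := by simp [Q]; ring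
      rw [this]; positivity
    have h3 : ∀ y : Fin 5 → ℝ, (∀ z, 0 ≤ Q y z) → y 4 = 0 → y 3 = 0 := by
      intro y h h4
      apply lin0 (y 3) (y 2 / 2)
      intro s _
      have := h ![0, 0, 0, 0, s, 1]
      simp [Q, h4] at this
      nlinarith
    have hv3 : v 3 = 0 := by
      apply lin0 (v 3) (u 3)
      intro s hs
      have hs' := abs_le.1 hs
      have hh := hin ![0, 0, 1, s, s ^ 2] (fun z => by
        have : Q ![0, 0, 1, s, s ^ 2] z = (1 + s) * z 0 ^ 2 + z 1 ^ 2 +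
          z 2 ^ 2 + z 3 ^ 2 + (z 4 + s * z 5) ^ 2 := by simp [Q]; ring
        rw [this]
        have : 0 ≤ 1 + s := by linarith
        positivity)
      have := h3 _ hh.1 hh.2
      rw [hform] at this
      simp only [Pi.add_apply, Pi.smul_apply, smul_eq_mul] at this
      simp at this
      linarith
    have e0 : v 2 + v 0 + v 3 - 1 = 0 := by
      apply lin0 _ (u 2 + u 0 + u 3)
      intro s hs
      have hs' := abs_le.1 hs
      have := hmem (-1 - s) 0 s (by linarith) (by linarith) (by linarith) (by linarith)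
        ![1, 0, 0, 0, 0, 0]
      simp only [Q, Pi.add_apply, Pi.smul_apply, smul_eq_mul] at this
      simp at this
      nlinarith
    have e1 : v 2 + v 1 = 0 := by
      apply lin0 _ (u 2 + u 1)
      intro s hs
      have hs' := abs_le.1 hs
      have := hmem 0 (-1) s (by linarith) (by linarith) (by linarith) (by linarith)
        ![0, 1, 0, 0, 0, 0]
      simp only [Q, Pi.add_apply, Pi.smul_apply, smul_eq_mul] at this
      simp at this
      nlinarith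
    have e2 : v 2 - v 0 = 0 := by
      apply lin0 _ (u 2 - u 0)
      intro s hs
      have hs' := abs_le.1 hs
      have := hmem 1 0 s (by linarith) (by linarith) (by linarith) (by linarith)
        ![0, 0, 1, 0, 0, 0]
      simp only [Q, Pi.add_apply, Pi.smul_apply, smul_eq_mul] at this
      simp at this
      nlinarith
    have e3 : v 2 - v 1 = 0 := by
      apply lin0 _ (u 2 - u 1)
      intro s hs
      have hs' := abs_le.1 hs
      have := hmem 0 1 s (by linarith) (by linarith) (by linarith) (by linarith)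
        ![0, 0, 0, 1, 0, 0]
      simp only [Q, Pi.add_apply, Pi.smul_apply, smul_eq_mul] at this
      simp at this
      nlinarith
    linarith

end Pool.Agent.Results.MP_55559b_an.NotExposed
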